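import Pool.Agent.Lib_MP_3483a5_an.AsmF

/-!
# MP_3483a5_an: both questions have a negative answer in every dimension `d ≥ 2`

The definitions used in the statement are in `Pool.Agent.Lib_MP_3483a5_an.Stm`.

In every dimension `d ≥ 2` the non-scattering data `u₀ ∈ H¹ ∩ L^∞` for which NO choice of
`γ₊, γ₋ > 0` and `0 < t⋆ < t₀` gives a dispersion-manageable solution are dense, in the norm of
`H¹ ∩ L^∞`, in the nonempty set of data of negative energy.  In fact every `H¹` solution with such a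
datum has an unbounded supremum norm on every interval `[0,T)`.
-/

open DMNLS

namespace Pool.Agent.Results.MP_3483a5_an.NeverManageable

theorem result (d : ℕ) (hd : 2 ≤ d) :
    (∃ (u₁ : Sp d → ℂ) (Du₁ : Fin d → Sp d → ℂ), NegEn u₁ Du₁) ∧
    ∀ (u₁ : Sp d → ℂ) (Du₁ : Fin d → Sp d → ℂ), NegEn u₁ Du₁ → ∀ ε : ℝ, 0 < ε →
      ∃ (u₀ : Sp d → ℂ) (Du₀ : Fin d → Sp d → ℂ), IsH1 u₀ Du₀ ∧ Close ε u₀ u₁ Du₀ Du₁ ∧
        ¬ Scatters u₀ ∧ DMNLS.NeverManageable u₀ :=
  DMNLS.main hd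

end Pool.Agent.Results.MP_3483a5_an.NeverManageable
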